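import Pool.Agent.Lib.MP_144d21_co.X2.IfaceC

/-!
# X2, RKCH: a chain is added by 0-extensions (helper88)
-/

set_option autoImplicit false

namespace Pool.Agent.Xu.X2.H88

open Finset Pool.Agent.Xu Pool.Agent.Xu.X2.H41

theorem inner_succ {V : Type} [Fintype V] [DecidableEq V] (b : ℕ → V) (n : ℕ) :
    inner b (n + 2) = insert (b (n + 1)) (inner b (n + 1)) := by
  ext x
  rw [mem_insert, mem_inner, mem_inner]
  constructor
  · rintro ⟨i, hi, hi', rfl⟩
    rcases Nat.lt_or_ge i (n + 1) with h | h
    · exact Or.inr ⟨i, hi, h, rfl⟩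
    · left
      rw [show i = n + 1 by omega]
  · rintro (rfl | ⟨i, hi, hi', rfl⟩)
    · exact ⟨n + 1, by omega, by omega, rfl⟩
    · exact ⟨i, hi, by omega, rfl⟩

theorem sdiff_inner_succ {V : Type} [Fintype V] [DecidableEq V] (S : Finset V) (b : ℕ → V)
    (n : ℕ) : S \ inner b (n + 2) = (S \ inner b (n + 1)).erase (b (n + 1)) := by
  rw [inner_succ, sdiff_insert]

theorem inner_one {V : Type} [Fintype V] [DecidableEq V] (b : ℕ → V) : inner b 1 = ∅ := by
  ext x
  rw [mem_inner]
  simp only [notMem_empty, iff_false]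
  rintro ⟨i, hi, hi', -⟩
  omega

theorem rkch (hZEX : ZexS) : RkchS := by
  intro V _ _ p hp G S h m b hc
  have key : ∀ n : ℕ, n + 2 ≤ m → rk p G S = rk p G (S \ inner b (n + 2)) + (2 * n + 3) ∧
      ∀ x ∈ rs p G S, (∀ v ∈ inner b (n + 2), x v = 0) → x ∈ rs p G (S \ inner b (n + 2)) := by
    intro n
    induction n with
    | zero =>
      intro hn
      have hnb := hc.nbb 1 (by omega) (by omega)
      have hcard : (nb G S (b 1)).card = 3 := by
        rw [hnb]
        refine card_eq_three.2 ⟨b 0, b 2, h, ?_, hc.bh 0 (by omega), hc.bh 2 hn, rfl⟩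
        intro e
        have := hc.inj 0 (by omega) 2 hn e
        omega
      obtain ⟨z1, z2⟩ := hZEX V p hp G S (b 1) (hc.bS 1 (by omega)) hcard.le
      have e1 : S \ inner b (0 + 2) = S.erase (b 1) := by
        rw [sdiff_inner_succ, zero_add, inner_one, sdiff_empty]
      rw [e1]
      refine ⟨by rw [z1, hcard], fun x hx hv => z2 x hx (hv _ ?_)⟩
      rw [mem_inner]
      exact ⟨1, by omega, by omega, rfl⟩
    | succ n ih =>
      intro hn
      obtain ⟨i1, i2⟩ := ih (by omega)
      have hnb := hc.nbb (n + 2) (by omega) (by omega)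
      obtain ⟨R, hR⟩ : ∃ R, R = S \ inner b (n + 2) := ⟨_, rfl⟩
      have hnR : nb G R (b (n + 2)) = {b (n + 3), h} := by
        ext y
        rw [mem_nb, hR, mem_sdiff]
        have h1 : y ∈ nb G S (b (n + 2)) ↔ y ∈ S ∧ G.Adj (b (n + 2)) y := mem_nb
        rw [hnb] at h1
        simp only [mem_insert, mem_singleton] at h1 ⊢
        constructor
        · rintro ⟨⟨hyS, hyi⟩, hadj⟩
          rcases h1.2 ⟨hyS, hadj⟩ with e | e | e
          · exfalso
            apply hyi
            rw [mem_inner]
            exact ⟨n + 1, by omega, by omega, e.symm⟩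
          · exact Or.inl e
          · exact Or.inr e
        · intro e
          have h2 : y ∈ S ∧ G.Adj (b (n + 2)) y := h1.1 (Or.inr e)
          refine ⟨⟨h2.1, fun hyi => ?_⟩, h2.2⟩
          obtain ⟨i, hi, hi', rfl⟩ := mem_inner.1 hyi
          rcases e with e | e
          · have := hc.inj i (by omega) (n + 3) (by omega) e
            omega
          · exact hc.bh i (by omega) e
      have hcard : (nb G R (b (n + 2))).card = 2 := by
        rw [hnR]
        exact card_pair (hc.bh (n + 3) (by omega))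
      have hmem : b (n + 2) ∈ R := by
        rw [hR, mem_sdiff]
        refine ⟨hc.bS _ (by omega), fun hyi => ?_⟩
        obtain ⟨i, hi, hi', e⟩ := mem_inner.1 hyi
        have := hc.inj i (by omega) (n + 2) (by omega) e
        omega
      obtain ⟨z1, z2⟩ := hZEX V p hp G R (b (n + 2)) hmem (by omega)
      have e1 : S \ inner b (n + 1 + 2) = R.erase (b (n + 2)) := by
        rw [hR]
        exact sdiff_inner_succ S b (n + 1)
      rw [e1]
      rw [← hR] at i1 i2
      refine ⟨by rw [i1, z1, hcard]; omega, fun x hx hv => z2 x (i2 x hx fun v hv' => ?_) ?_⟩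
      · apply hv
        obtain ⟨i, hi, hi', e⟩ := mem_inner.1 hv'
        exact mem_inner.2 ⟨i, hi, by omega, e⟩
      · apply hv
        exact mem_inner.2 ⟨n + 2, by omega, by omega, rfl⟩
  obtain ⟨n, rfl⟩ : ∃ n, m = n + 2 := ⟨m - 2, by have := hc.m2; omega⟩
  obtain ⟨k1, k2⟩ := key n le_rfl
  exact ⟨by rw [k1]; omega, k2⟩

end Pool.Agent.Xu.X2.H88
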